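import Pool.Agent.Q10.XY1

/-!
# Partition regularity of `x - 2 y = p(z)` for nonlinear `p`

For `p ∈ ℤ[t]` of degree at least two the equation `x - 2 y = p(z)` is partition regular over the positive
integers if and only if it has a constant solution, that is, `p(a) = -a` for some positive integer `a`.
The cases of degree at most one are Rado's theorem.
-/

set_option autoImplicit false

namespace Pool.Agent.Results.MP_0ef770_co.NonlinearCase

open Polynomial

/-- The equation `x - 2 y = p(z)` is partition regular: every colouring of the positive integers with finitely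
many colours has a monochromatic solution `x, y, z` (not necessarily distinct). -/
def PartitionRegular (p : ℤ[X]) : Prop :=
  ∀ (r : ℕ) (c : ℕ+ → Fin r), ∃ x y z : ℕ+, c x = c y ∧ c y = c z ∧
    ((x : ℕ) : ℤ) - 2 * ((y : ℕ) : ℤ) = p.eval ((z : ℕ) : ℤ)

open Pool.Agent.Q10.XY1

/-- there is a finite colouring all of whose monochromatic solutions are constant -/
theorem only_constant (p : ℤ[X]) (hd : 2 ≤ p.natDegree) :
    ∃ (r : ℕ) (c : ℕ+ → Fin r), ∀ x y z : ℕ+, c x = c y → c y = c z →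
      ((x : ℕ) : ℤ) - 2 * ((y : ℕ) : ℤ) = p.eval ((z : ℕ) : ℤ) → x = y ∧ y = z := by
  obtain ⟨N, hN⟩ := growth' p hd
  set d := p.natDegree with hdd
  set N1 := N + 2 ^ 8 with hN1
  obtain ⟨s, hs1, hs⟩ : ∃ s : ℕ, 1 ≤ s ∧ 2 * d + 6 ≤ 2 ^ s :=
    ⟨2 * d + 6, by omega, Nat.lt_two_pow_self.le⟩
  -- the colouring
  let K : ℕ+ → Fin (N1 + 2) × Fin (4 * s + 1) × Fin 4 := fun n =>
    (⟨min n (N1 + 1), by omega⟩, ⟨gg n % (4 * s + 1), Nat.mod_lt _ (by omega)⟩,
      ⟨hh n % 4, Nat.mod_lt _ (by omega)⟩)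
  let e := Fintype.equivFin (Fin (N1 + 2) × Fin (4 * s + 1) × Fin 4)
  refine ⟨_, fun n => e (K n), fun x y z hxy hyz heq => ?_⟩
  have hxy' : K x = K y := e.injective hxy
  have hyz' : K y = K z := e.injective hyz
  have hm1 : min (x : ℕ) (N1 + 1) = min (y : ℕ) (N1 + 1) := by
    have := congrArg (fun k => (k.1 : ℕ)) hxy'
    simpa [K] using this
  have hm2 : min (y : ℕ) (N1 + 1) = min (z : ℕ) (N1 + 1) := by
    have := congrArg (fun k => (k.1 : ℕ)) hyz'
    simpa [K] using this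
  have hg1 : gg x % (4 * s + 1) = gg y % (4 * s + 1) := by
    have := congrArg (fun k => (k.2.1 : ℕ)) hxy'
    simpa [K] using this
  have hg2 : gg y % (4 * s + 1) = gg z % (4 * s + 1) := by
    have := congrArg (fun k => (k.2.1 : ℕ)) hyz'
    simpa [K] using this
  have hh1 : hh x % 4 = hh y % 4 := by
    have := congrArg (fun k => (k.2.2 : ℕ)) hxy'
    simpa [K] using this
  have hx0 := x.pos
  have hy0 := y.pos
  have hz0 := z.pos
  rw [← PNat.coe_inj, ← PNat.coe_inj]
  generalize (x : ℕ) = X at *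
  generalize (y : ℕ) = Y at *
  generalize (z : ℕ) = Z at *
  by_cases hsmall : Z ≤ N1
  · omega
  exfalso
  have hXb : N1 < X := by omega
  have hYb : N1 < Y := by omega
  push Not at hsmall
  have hZ8 : 2 ^ 8 ≤ Z := by omega
  obtain ⟨hpos, hneg, hab⟩ := hN Z (by omega)
  have hp0 : p.leadingCoeff ≠ 0 := by
    intro h
    rw [Polynomial.leadingCoeff_eq_zero] at h
    rw [hdd, h] at hd
    simp at hd
  rcases lt_or_gt_of_ne hp0 with hl | hl
  · -- negative leading coefficient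
    have h1 := hneg hl
    have h2 : Z ^ 2 ≤ 4 * Y := by
      have h3 : (Z : ℤ) ^ 2 ≤ 4 * (Y : ℤ) := by
        have : (0 : ℤ) ≤ X := by positivity
        rw [← heq] at h1; linarith
      exact_mod_cast h3
    have hfar := far s Y Z hZ8 h2 hg2
    have hne := negligible s d hs Y Z hZ8 hfar (by omega)
    have h4 : 16 * |p.eval (Z : ℤ)| ≤ Y := by
      have : (16 : ℤ) * (Z : ℤ) ^ (d + 1) ≤ Y := by exact_mod_cast hne
      linarith
    have h5 : p.eval (Z : ℤ) ≤ 0 := by
      have : (0 : ℤ) ≤ (Z : ℤ) ^ 2 := by positivity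
      linarith
    obtain ⟨h6, h7⟩ := abs_le.1 (show |p.eval (Z : ℤ)| ≤ |p.eval (Z : ℤ)| from le_rfl)
    have h8 : (31 : ℤ) * Y ≤ 16 * X := by linarith
    have h9 : (X : ℤ) ≤ 2 * Y := by linarith
    have h8' : 31 * Y ≤ 16 * X := by exact_mod_cast h8
    have h9' : X ≤ 2 * Y := by exact_mod_cast h9
    refine hh_ne X Y (by omega) ?_ ?_ hh1
    · nlinarith
    · nlinarith
  · have h1 := hpos hl
    have h2 : Z ^ 2 ≤ 4 * X := by
      have h3 : (Z : ℤ) ^ 2 ≤ 4 * (X : ℤ) := by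
        have : (0 : ℤ) ≤ Y := by positivity
        rw [← heq] at h1; linarith
      exact_mod_cast h3
    have hfar := far s X Z hZ8 h2 (hg1.trans hg2)
    have hne := negligible s d hs X Z hZ8 hfar (by omega)
    have h4 : 16 * |p.eval (Z : ℤ)| ≤ X := by
      have : (16 : ℤ) * (Z : ℤ) ^ (d + 1) ≤ X := by exact_mod_cast hne
      linarith
    have h5 : 0 ≤ p.eval (Z : ℤ) := by
      have : (0 : ℤ) ≤ (Z : ℤ) ^ 2 := by positivity
      linarith
    obtain ⟨h6, h7⟩ := abs_le.1 (show |p.eval (Z : ℤ)| ≤ |p.eval (Z : ℤ)| from le_rfl)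
    have h8 : (15 : ℤ) * X ≤ 32 * Y := by linarith
    have h9 : (2 : ℤ) * Y ≤ X := by linarith
    have h8' : 15 * X ≤ 32 * Y := by exact_mod_cast h8
    have h9' : 2 * Y ≤ X := by exact_mod_cast h9
    refine hh_ne X Y (by omega) ?_ ?_ hh1
    · nlinarith
    · nlinarith

/-- For `p ∈ ℤ[t]` of degree at least two: the equation `x - 2 y = p(z)` is partition regular if and only if it
has a constant solution; and there is a finite colouring of the positive integers all of whose monochromatic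
solutions are constant. -/
theorem result (p : ℤ[X]) (hd : 2 ≤ p.natDegree) :
    (PartitionRegular p ↔ ∃ a : ℕ, 0 < a ∧ p.eval (a : ℤ) = -(a : ℤ)) ∧
    ∃ (r : ℕ) (c : ℕ+ → Fin r), ∀ x y z : ℕ+, c x = c y → c y = c z →
      ((x : ℕ) : ℤ) - 2 * ((y : ℕ) : ℤ) = p.eval ((z : ℕ) : ℤ) → x = y ∧ y = z := by
  refine ⟨⟨fun hPR => ?_, ?_⟩, only_constant p hd⟩
  · obtain ⟨r, c, hc⟩ := only_constant p hd
    obtain ⟨x, y, z, h1, h2, h3⟩ := hPR r c
    obtain ⟨h4, h5⟩ := hc x y z h1 h2 h3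
    subst h4; subst h5
    exact ⟨x, x.pos, by rw [← h3]; ring⟩
  · rintro ⟨a, ha, hpa⟩ r c
    refine ⟨⟨a, ha⟩, ⟨a, ha⟩, ⟨a, ha⟩, rfl, rfl, ?_⟩
    simp only [PNat.mk_coe]
    rw [hpa]; ring

end Pool.Agent.Results.MP_0ef770_co.NonlinearCase
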